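import Pool.Agent.H14.PD.Stmts

set_option autoImplicit false

namespace Pool.Agent.H14.PD

def pd_szb_adj (p q : Fin 21) : Prop := (p.val + q.val) % 21 ∈ [3, 6, 7, 12, 14]

instance (p q : Fin 21) : Decidable (pd_szb_adj p q) := by
  unfold pd_szb_adj; infer_instance

def pd_szb_bp (p : Fin 21) : Bool := !decide (p.val ∈ [4, 6, 7, 8, 9, 12, 15, 16, 17, 19])

def pd_szb_bq (q : Fin 21) : Bool := !decide (q.val ∈ [0, 1, 5, 7, 10, 12, 13, 16, 17, 18, 19])

def pd_szb_par (b c : Bool) (p : Fin 21) : Fin 21 :=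
  match b, c with
  | false, false =>
    (![4, 4, 4, 4, 4, 4, 17, 17, 17, 17, 4, 4, 17, 4, 4, 17, 7, 4, 4, 17, 4] : Fin 21 → Fin 21) p
  | false, true =>
    (![4, 4, 4, 4, 4, 4, 4, 4, 4, 4, 4, 4, 4, 4, 4, 4, 4, 16, 4, 4, 4] : Fin 21 → Fin 21) p
  | true, false =>
    (![0, 2, 0, 14, 0, 0, 0, 0, 0, 0, 11, 2, 0, 2, 2, 0, 0, 0, 2, 0, 0] : Fin 21 → Fin 21) p
  | true, true =>
    (![0, 0, 3, 0, 0, 1, 0, 0, 0, 0, 0, 0, 0, 0, 0, 0, 0, 0, 0, 0, 3] : Fin 21 → Fin 21) p

def pd_szb_st (b c : Bool) (a a' : Fin 21) : Prop :=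
  pd_szb_bp a' = b ∧ ∃ q, pd_szb_bq q = c ∧ pd_szb_adj a q ∧ pd_szb_adj a' q

instance (b c : Bool) (a a' : Fin 21) : Decidable (pd_szb_st b c a a') := by
  unfold pd_szb_st; infer_instance

theorem pd_szb_c4 : ∀ p q, pd_szb_adj p q → ∀ q', pd_szb_adj p q' → ∀ p', pd_szb_adj p' q →
    pd_szb_adj p' q' → p = p' ∨ q = q' := by
  decide +kernel

theorem pd_szb_nbp : ∀ p b, ∃ q, pd_szb_adj p q ∧ pd_szb_bq q = b := by
  decide +kernel

theorem pd_szb_nbq : ∀ q b, ∃ p, pd_szb_adj p q ∧ pd_szb_bp p = b := by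
  decide +kernel

theorem pd_szb_step : ∀ b c p, pd_szb_bp p = b →
    pd_szb_st b c p (pd_szb_par b c p) ∧ pd_szb_st b c (pd_szb_par b c p) p := by
  decide +kernel

theorem pd_szb_root : ∀ b c p, pd_szb_bp p = b →
    pd_szb_par b c (pd_szb_par b c (pd_szb_par b c p)) = bif b then 0 else 4 := by
  decide +kernel

theorem pd_szb_bpar : ∀ b c p, pd_szb_bp p = b → pd_szb_bp (pd_szb_par b c p) = b := by
  intro b c p h
  exact (pd_szb_step b c p h).1.1

theorem pd_szb_con (b c : Bool) (p p' : Fin 21) (h : pd_szb_bp p = b) (h' : pd_szb_bp p' = b) :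
    Relation.ReflTransGen (pd_szb_st b c) p p' := by
  have key : ∀ p, pd_szb_bp p = b →
      Relation.ReflTransGen (pd_szb_st b c) p (bif b then 0 else 4) ∧
      Relation.ReflTransGen (pd_szb_st b c) (bif b then 0 else 4) p := by
    intro p hp
    have h1 := pd_szb_step b c p hp
    have hb1 := pd_szb_bpar b c p hp
    have h2 := pd_szb_step b c _ hb1
    have hb2 := pd_szb_bpar b c _ hb1
    have h3 := pd_szb_step b c _ hb2
    have hr := pd_szb_root b c p hp
    rw [← hr]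
    exact ⟨((Relation.ReflTransGen.single h1.1).tail h2.1).tail h3.1,
      ((Relation.ReflTransGen.single h3.2).tail h2.2).tail h1.2⟩
  exact (key p h).1.trans (key p' h').2

/-- a sizeable graph -/
theorem pd_szb : SZB := by
  refine ⟨{
    adj := pd_szb_adj
    bp := pd_szb_bp
    bq := pd_szb_bq
    c4 := ?_
    nbp := pd_szb_nbp
    nbq := pd_szb_nbq
    con := ?_
    ps := 0
    qs := 3
    ps_qs := by decide +kernel
    p0 := 4
    p1 := 0
    q0 := 0
    q0' := 1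
    q1 := 2
    hp0 := by decide +kernel
    hp1 := by decide +kernel
    hq0 := by decide +kernel
    hq0' := by decide +kernel
    hq1 := by decide +kernel
    hne := by decide }⟩
  · intro p p' q q' h1 h2 h3 h4
    exact pd_szb_c4 p q h1 q' h2 p' h3 h4
  · intro b c p p' h h'
    exact pd_szb_con b c p p' h h'

end Pool.Agent.H14.PD
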