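import Pool.Agent.H14.PD.Stmts

set_option autoImplicit false

namespace Pool.Agent.H14.PD

section

variable {P Q : Type} (Z : Sz P Q)

/-- the base vertex with another last coordinate -/
def pd_xvp_xt (n : Nd P Q) : Xv P Q :=
  fun i => if i = 0 then Nd.p Z.ps false else if i = 1 then Nd.q Z.qs false else n

theorem pd_xvp_xo : xo Z = pd_xvp_xt Z (Nd.p Z.p0 false) := rfl

theorem pd_xvp_xt0 (n : Nd P Q) : pd_xvp_xt Z n 0 = Nd.p Z.ps false := rfl

theorem pd_xvp_xt1 (n : Nd P Q) : pd_xvp_xt Z n 1 = Nd.q Z.qs false := rfl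

theorem pd_xvp_xt2 (n : Nd P Q) : pd_xvp_xt Z n 2 = n := rfl

theorem pd_xvp_gd (n : Nd P Q) (hn : nrm Z n) : gd Z (pd_xvp_xt Z n) := by
  constructor
  · intro i
    fin_cases i
    · intro b h
      have h' : Nd.p Z.ps false = Nd.p Z.ps b := h
      simp only [Nd.p.injEq, true_and] at h'
      exact h'.symm
    · intro b h
      have h' : Nd.q Z.qs false = Nd.p Z.ps b := h
      exact absurd h' (by simp)
    · exact hn
  · intro i p b q c h1 h2
    fin_cases i
    · have h1' : Nd.p Z.ps false = Nd.p p b := h1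
      have h2' : Nd.q Z.qs false = Nd.q q c := h2
      simp only [Nd.p.injEq] at h1'
      simp only [Nd.q.injEq] at h2'
      rw [← h1'.1, ← h2'.1]
      exact Z.ps_qs
    · have h1' : Nd.q Z.qs false = Nd.p p b := h1
      exact absurd h1' (by simp)
    · have h2' : Nd.p Z.ps false = Nd.q q c := h2
      exact absurd h2' (by simp)

theorem pd_xvp_act (n : Nd P Q) (p : P) (q : Q) :
    xact Z (pd_xvp_xt Z n) (2, p, q, false) = pd_xvp_xt Z (oe Z n p q false) := by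
  funext i
  fin_cases i <;> simp [xact, pd_xvp_xt]

theorem pd_xvp_pe (p : P) : pe Z p false = Nd.p p false := by
  unfold pe; split_ifs <;> rfl

theorem pd_xvp_nrmp (p : P) : nrm Z (Nd.p p false) := by
  intro b h
  simp only [Nd.p.injEq] at h
  exact h.2.symm

theorem pd_xvp_nrmq (q : Q) (b : Bool) : nrm Z (Nd.q q b) := by
  intro c h
  exact absurd h (by simp)

theorem pd_xvp_oep (p p' : P) (q : Q) : oe Z (Nd.p p' false) p q false = Nd.q q false := by
  unfold oe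
  rw [if_neg]
  simp

theorem pd_xvp_oeq (p : P) (q : Q) : oe Z (Nd.q q false) p q false = Nd.p p false := by
  unfold oe
  rw [if_pos rfl, pd_xvp_pe]

/-- going from the `P`-node to the `Q`-node -/
theorem pd_xvp_labp (p : P) (q : Q) :
    xlab Z (pd_xvp_xt Z (Nd.p p false)) (2, p, q, false) ∧
    xact Z (pd_xvp_xt Z (Nd.p p false)) (2, p, q, false) = pd_xvp_xt Z (Nd.q q false) := by
  have h : xact Z (pd_xvp_xt Z (Nd.p p false)) (2, p, q, false) =
      pd_xvp_xt Z (Nd.q q false) := by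
    rw [pd_xvp_act, pd_xvp_oep]
  refine ⟨⟨pd_xvp_gd Z _ (pd_xvp_nrmp Z p), ?_, Or.inr ?_⟩, h⟩
  · rw [h]; exact pd_xvp_gd Z _ (pd_xvp_nrmq Z q false)
  · change Nd.p p false = pe Z p false
    rw [pd_xvp_pe]

/-- going from the `Q`-node to the `P`-node -/
theorem pd_xvp_labq (p : P) (q : Q) :
    xlab Z (pd_xvp_xt Z (Nd.q q false)) (2, p, q, false) ∧
    xact Z (pd_xvp_xt Z (Nd.q q false)) (2, p, q, false) = pd_xvp_xt Z (Nd.p p false) := by
  have h : xact Z (pd_xvp_xt Z (Nd.q q false)) (2, p, q, false) =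
      pd_xvp_xt Z (Nd.p p false) := by
    rw [pd_xvp_act, pd_xvp_oeq]
  refine ⟨⟨pd_xvp_gd Z _ (pd_xvp_nrmq Z q false), ?_, Or.inl rfl⟩, h⟩
  rw [h]; exact pd_xvp_gd Z _ (pd_xvp_nrmp Z p)

theorem pd_xvp_etap (m : ℕ) (p : P) (q : Q) (h : Z.bp p = Z.bq q) :
    xeta Z m (pd_xvp_xt Z (Nd.p p false)) (2, p, q, false) = 1 := by
  unfold xeta
  have h1 : pd_xvp_xt Z (Nd.p p false) 2 = Nd.p p false := rfl
  simp [h, h1]

theorem pd_xvp_etaq (m : ℕ) (p : P) (q : Q) (h : Z.bp p ≠ Z.bq q) :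
    xeta Z m (pd_xvp_xt Z (Nd.q q false)) (2, p, q, false) = 1 := by
  unfold xeta
  have h1 : pd_xvp_xt Z (Nd.q q false) 2 = Nd.q q false := rfl
  simp [h, h1]

/-- one turn -/
theorem pd_xvp_turn (m : ℕ) (M : Mc (Xv P Q) (Xs P Q))
    (hlab : M.lab = xlab Z) (hact : M.act = xact Z) (heta : M.eta = xeta Z m)
    (q : Q) (hq : Z.bq q = false) (a b h : ℤ) (ha : a ≤ h) (hb : h + 4 ≤ b) :
    Tr (M.slab a b).lab M.lact (xo Z, h) (uw Z q) ∧
      en M.lact (xo Z, h) (uw Z q) = (xo Z, h + 4) := by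
  have e1 : M.lact (pd_xvp_xt Z (Nd.p Z.p0 false), h) (2, Z.p0, q, false) =
      (pd_xvp_xt Z (Nd.q q false), h + 1) := by
    unfold Mc.lact
    rw [hact, heta]
    simp only
    rw [(pd_xvp_labp Z Z.p0 q).2, pd_xvp_etap Z m Z.p0 q (by rw [Z.hp0, hq])]
  have e2 : M.lact (pd_xvp_xt Z (Nd.q q false), h + 1) (2, Z.p1, q, false) =
      (pd_xvp_xt Z (Nd.p Z.p1 false), h + 2) := by
    unfold Mc.lact
    rw [hact, heta]
    simp only
    rw [(pd_xvp_labq Z Z.p1 q).2, pd_xvp_etaq Z m Z.p1 q (by rw [Z.hp1, hq]; simp)]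
    apply Prod.ext <;> simp only
    ring
  have e3 : M.lact (pd_xvp_xt Z (Nd.p Z.p1 false), h + 2) (2, Z.p1, Z.q1, false) =
      (pd_xvp_xt Z (Nd.q Z.q1 false), h + 3) := by
    unfold Mc.lact
    rw [hact, heta]
    simp only
    rw [(pd_xvp_labp Z Z.p1 Z.q1).2, pd_xvp_etap Z m Z.p1 Z.q1 (by rw [Z.hp1, Z.hq1])]
    apply Prod.ext <;> simp only
    ring
  have e4 : M.lact (pd_xvp_xt Z (Nd.q Z.q1 false), h + 3) (2, Z.p0, Z.q1, false) =
      (pd_xvp_xt Z (Nd.p Z.p0 false), h + 4) := by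
    unfold Mc.lact
    rw [hact, heta]
    simp only
    rw [(pd_xvp_labq Z Z.p0 Z.q1).2, pd_xvp_etaq Z m Z.p0 Z.q1 (by rw [Z.hp0, Z.hq1]; simp)]
    apply Prod.ext <;> simp only
    ring
  rw [pd_xvp_xo]
  unfold uw
  simp only [Tr, en, e1, e2, e3, e4, and_true]
  simp only [Mc.slab, e1, e2, e3, e4, hlab]
  refine ⟨⟨(pd_xvp_labp Z Z.p0 q).1, ?_⟩, ⟨(pd_xvp_labq Z Z.p1 q).1, ?_⟩,
    ⟨(pd_xvp_labp Z Z.p1 Z.q1).1, ?_⟩, ⟨(pd_xvp_labq Z Z.p0 Z.q1).1, ?_⟩⟩ <;>
    constructor <;> constructor <;> omega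

/-- many turns -/
theorem pd_xvp_turns (hTRB : TRB) (m : ℕ) (M : Mc (Xv P Q) (Xs P Q))
    (hlab : M.lab = xlab Z) (hact : M.act = xact Z) (heta : M.eta = xeta Z m)
    (q : Q) (hq : Z.bq q = false) (a b : ℤ) (k : ℕ) : ∀ h : ℤ, a ≤ h → h + 4 * k ≤ b →
    Tr (M.slab a b).lab M.lact (xo Z, h) (uwk Z q k) ∧
      en M.lact (xo Z, h) (uwk Z q k) = (xo Z, h + 4 * k) := by
  obtain ⟨t1, t2, -, -⟩ := hTRB (Xv P Q × ℤ) (Xs P Q) (M.slab a b).lab M.lact
  induction k with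
  | zero =>
    intro h ha hb
    refine ⟨trivial, ?_⟩
    simp [uwk, en]
  | succ k ih =>
    intro h ha hb
    push_cast at hb
    have h1 := pd_xvp_turn Z m M hlab hact heta q hq a b h ha (by omega)
    have h2 := ih (h + 4) (by omega) (by omega)
    unfold uwk
    constructor
    · rw [t1]
      refine ⟨h1.1, ?_⟩
      rw [h1.2]; exact h2.1
    · rw [t2, h1.2, h2.2]
      push_cast
      apply Prod.ext <;> simp only
      ring

theorem pd_xvp_dir (q : Q) (k : ℕ) : ∀ s ∈ uwk Z q k, s.1 = 2 := by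
  induction k with
  | zero => intro s hs; simp [uwk] at hs
  | succ k ih =>
    intro s hs
    unfold uwk at hs
    rw [List.mem_append] at hs
    rcases hs with hs | hs
    · simp only [uw, List.mem_cons, List.not_mem_nil, or_false] at hs
      rcases hs with rfl | rfl | rfl | rfl <;> rfl
    · exact ih s hs

theorem pd_xvp_len (q : Q) (k : ℕ) : (uwk Z q k).length = 4 * k := by
  induction k with
  | zero => rfl
  | succ k ih =>
    unfold uwk
    rw [List.length_append, ih]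
    simp only [uw, List.length_cons, List.length_nil]
    omega

theorem pd_xvp_head (q : Q) (k : ℕ) : ∀ y ∈ (uwk Z q k).head?, y = (2, Z.p0, q, false) := by
  cases k with
  | zero => intro y hy; simp [uwk] at hy
  | succ k =>
    intro y hy
    simp [uwk, uw] at hy
    exact hy.symm

theorem pd_xvp_chain (q : Q) (hq : Z.bq q = false) (k : ℕ) :
    List.IsChain (fun a b => a ≠ b) (uwk Z q k) := by
  have hp : Z.p0 ≠ Z.p1 := by
    intro h
    have h1 := Z.hp0
    rw [h, Z.hp1] at h1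
    exact absurd h1 (by simp)
  have hqq : q ≠ Z.q1 := by
    intro h
    rw [h, Z.hq1] at hq
    exact absurd hq (by simp)
  induction k with
  | zero => simp [uwk]
  | succ k ih =>
    unfold uwk
    rw [List.isChain_append]
    refine ⟨?_, ih, ?_⟩
    · simp [uw, hp, hqq, hp.symm]
    · intro x hx y hy
      have hy' := pd_xvp_head Z q k y hy
      simp [uw] at hx
      rw [← hx, hy']
      intro h
      simp only [Prod.mk.injEq, true_and, and_true] at h
      exact hqq h.symm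

theorem pd_xvp_rd (cm : Xs P Q → Xs P Q → Prop) (hcm : ∀ s t : Xs P Q, s.1 = t.1 → ¬ cm s t)
    (w : List (Xs P Q)) (hd : ∀ s ∈ w, s.1 = 2) (hc : List.IsChain (fun a b => a ≠ b) w) :
    Rd cm w := by
  intro a u b s hw
  cases u with
  | nil =>
    exfalso
    rw [hw] at hc
    rw [List.isChain_append] at hc
    have h2 := hc.2.1
    simp only [List.nil_append, List.isChain_cons_cons] at h2
    exact h2.1 rfl
  | cons t u =>
    refine ⟨t, by simp, ?_⟩
    apply hcm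
    rw [hd s (by rw [hw]; simp), hd t (by rw [hw]; simp)]

end

/-- the distorted path -/
theorem pd_xvp : M_XVP := by
  intro hTRB hXCM _ hSLP P Q Z m M hcm hlab hact heta hm hbig r k hrk
  obtain ⟨-, -, -, xc⟩ := hXCM P Q Z
  have hmem : ∀ s ∈ (uwk Z Z.q0 k).reverse ++ uwk Z Z.q0' k, s.1 = 2 := by
    intro s hs
    rw [List.mem_append, List.mem_reverse] at hs
    rcases hs with hs | hs
    · exact pd_xvp_dir Z _ k s hs
    · exact pd_xvp_dir Z _ k s hs
  have hrm : ((r : ℤ) * (m : ℤ)) = 4 * (k : ℤ) := by exact_mod_cast hrk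
  have hrm' : (-((r : ℤ) * (m : ℤ))) = -(4 * (k : ℤ)) := by rw [hrm]
  have hup0 := pd_xvp_turns Z hTRB m M hlab hact heta Z.q0 Z.hq0 (-(4 * (k : ℤ))) 0 k
    (-(4 * (k : ℤ))) le_rfl (by omega)
  have hup1 := pd_xvp_turns Z hTRB m M hlab hact heta Z.q0' Z.hq0' (-(4 * (k : ℤ))) 0 k
    (-(4 * (k : ℤ))) le_rfl (by omega)
  have hz : -(4 * (k : ℤ)) + 4 * (k : ℤ) = 0 := by ring
  rw [hz] at hup0 hup1
  obtain ⟨-, -, -, -, -, s6, -, s8, -⟩ := hSLP (Xv P Q) (Xs P Q) M (-(4 * (k : ℤ))) 0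
  have hk0 : (0 : ℤ) ≤ k := Int.natCast_nonneg k
  have hSl0 : M.Sl (-(4 * (k : ℤ))) 0 (xo Z, -(4 * (k : ℤ))) (uwk Z Z.q0 k) :=
    ⟨⟨le_rfl, by simp only; omega⟩, hup0.1⟩
  have hSl1 : M.Sl (-(4 * (k : ℤ))) 0 (xo Z, -(4 * (k : ℤ))) (uwk Z Z.q0' k) :=
    ⟨⟨le_rfl, by simp only; omega⟩, hup1.1⟩
  have hdn := s8 _ _ hSl0
  rw [hup0.2] at hdn
  obtain ⟨t1, t2, -, t4⟩ := hTRB (Xv P Q × ℤ) (Xs P Q) (M.slab (-(4 * (k : ℤ))) 0).lab M.lact
  have hen := (t4 (M.slab (-(4 * (k : ℤ))) 0).inv _ _ hSl0.2).2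
  rw [hup0.2] at hen
  rw [hrm']
  refine ⟨?_, ?_, ?_, ?_, ?_, ?_⟩
  · intro s hs hb
    rw [hbig] at hb
    have h2 := hmem s hs
    unfold xbig at hb
    rw [hb] at h2
    exact absurd h2 (by decide)
  · apply pd_xvp_rd
    · rw [hcm]; exact xc
    · exact hmem
    · rw [List.isChain_append]
      refine ⟨?_, pd_xvp_chain Z _ Z.hq0' k, ?_⟩
      · rw [List.isChain_reverse]
        refine (pd_xvp_chain Z _ Z.hq0 k).imp ?_
        intro a b hab h
        exact hab h.symm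
      · intro x hx y hy
        have hy' := pd_xvp_head Z _ k y hy
        rw [List.getLast?_reverse] at hx
        have hx' := pd_xvp_head Z _ k x hx
        rw [hx', hy']
        intro h
        simp only [Prod.mk.injEq, true_and, and_true] at h
        exact Z.hne h
  · rw [s6]
    refine ⟨hdn, ?_⟩
    rw [hen]
    exact hSl1
  · rw [hen]
  · rw [t2, hen, hup1.2]
  · rw [List.length_append, List.length_reverse, pd_xvp_len, pd_xvp_len, hrk]
    ring

end Pool.Agent.H14.PD
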